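import Mathlib
import Pool.Agent.Lib.MP_c7df87_gt.Defs
import Pool.Agent.Lib.MP_c7df87_gt.Top

set_option autoImplicit false

open Topology Set Pool.Agent.Lib.MP_c7df87_gt

namespace Pool.Agent.Results.MP_c7df87_gt.CountableWhyburn

/-- There is a countable regular (T3) Whyburn space which is separable and d-separable but not
D-separable. -/
theorem result : ∃ (X : Type) (_ : TopologicalSpace X), Countable X ∧ T3Space X ∧ Whyburn X ∧
    TopologicalSpace.SeparableSpace X ∧ SmallDSeparable X ∧ ¬ BigDSeparable X := by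
  obtain ⟨φ, h1, h2⟩ := exists_phi
  refine ⟨Sp φ, inferInstance, inferInstance, inferInstance, whyburn h1 h2, inferInstance, ?_,
    not_bigDSeparable h1 h2⟩
  have hne : Nonempty (Sp φ) := ⟨((0, 0) : P)⟩
  obtain ⟨f, hf⟩ := exists_surjective_nat (Sp φ)
  refine ⟨fun n => {f n}, fun n => inferInstance, ?_⟩
  have : (⋃ n, ({f n} : Set (Sp φ))) = univ := by
    rw [eq_univ_iff_forall]
    intro x
    obtain ⟨n, hn⟩ := hf x
    exact mem_iUnion.2 ⟨n, hn.symm⟩
  rw [this]
  exact dense_univ

end Pool.Agent.Results.MP_c7df87_gt.CountableWhyburn
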